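import Pool.Agent.J4.H89.Pert

/-!
# Ergodic families with a nonzero centred moment, and perturbations of arbitrary ergodic families

Let a countable group `G` act ergodically on a probability space `(Ω, P)`, and let `T ω` (`ω ∈ Ω`) be bounded
operators on the complex Hilbert space `ℓ²(G)` whose matrix entries `t ω i j = ⟨T ω δ_j, δ_i⟩` are measurable in
`ω` and stationary, `t (g ω) (g i) (g j) = t ω i j`.  Nothing else is assumed: any countable group, arbitrary
complex entries, any range, no bound on the norms.  The centred moments of the family are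
`M_n(T) = E ⟨(T ω - E t 1 1)^n δ_1, δ_1⟩`.

(1) If `M_n(T) ≠ 0` for one `n ≥ 1`, then almost every `T ω` has a nontrivial closed hyperinvariant subspace.

(2) If `M_n(V) ≠ 0` for a second family `V` and one `n ≥ 1`, then for every family `T` and for all complex
numbers `z` with at most `n` exceptions almost every `T ω + z V ω` has a nontrivial closed hyperinvariant
subspace.

(3) If the `V ω` are self-adjoint and not almost everywhere equal to one scalar, then for every family `T` and
for all complex `z` with at most two exceptions almost every `T ω + z V ω` has a nontrivial closed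
hyperinvariant subspace.

Example for (3): `V ω` is a real ergodic potential on `G` which is not constant, or the adjacency operator of a
stationary random graph on `G`, and `T` is completely arbitrary: for example a quasinilpotent random operator, or
a random operator for which nothing is known.

Proof of (1).  The bounded covariant fields form a C*-algebra with the trace `τ(A) = E ⟨A δ_1, δ_1⟩`.  For an
element `Q` of trace zero either almost every value of `Q` has a nontrivial hyperinvariant subspace (as a
spectral subspace of a nonscalar strong limit of `(1/k) log |exp(k z Q)|²`, with the starting library for the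
theorem of Haagerup and Schultz), or `(1/k) log |exp(k z Q)|² → 0` in the 2-norm for all `z`, which gives
`τ log(1 + Λ^(2k) |Q^k|²) = o(k)` for all `Λ`.  If the second case occurs both for `Q = S = T - τ(T)` and for
`Q = S^n - β`, `β = τ(S^n) ≠ 0`, then the binomial expansion `β^(2k) = (S^n - Q)^(2k) = A_k S^(n k) + B_k Q^k`
with `‖A_k‖, ‖B_k‖ ≤ C^k` gives a contradiction, by the subadditivity and monotonicity of `τ log(1 + ·)`.
(2) follows since the moment of `T + z V` is a polynomial of degree `n` in `z` with leading coefficient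
`M_n(V)`, and (3) since `M_2(V) > 0`.
-/

set_option autoImplicit false
open MeasureTheory

namespace Pool.Agent.J4.H89.Old.MomentCriterion

/-- the Hilbert space of square summable complex functions on `G` -/
abbrev L2 (G : Type) : Type := lp (fun _ : G => ℂ) 2

/-- the bounded operators on it -/
abbrev Op (G : Type) : Type := L2 G →L[ℂ] L2 G

/-- `G` acts on the probability space `(Ω, P)` by measure-preserving maps, and every measurable set which is
invariant under all of them has probability zero or one -/
structure ErgodicAction (G : Type) {Ω : Type} [Group G] [MeasurableSpace Ω] [MulAction G Ω]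
    (P : Measure Ω) : Prop where
  preserving : ∀ g : G, MeasurePreserving (fun ω : Ω => g • ω) P P
  ergodic : ∀ B : Set Ω, MeasurableSet B → (∀ g : G, (fun ω : Ω => g • ω) ⁻¹' B = B) →
    P B = 0 ∨ P Bᶜ = 0

/-- the matrix entry of `A` in row `i` and column `j`: the value at `i` of the image of the indicator
function of `j` -/
noncomputable def entry {G : Type} [DecidableEq G] (A : Op G) (i j : G) : ℂ :=
  (A (lp.single 2 j (1 : ℂ)) : G → ℂ) i

/-- the matrix entries of `T ω` are measurable in `ω` and stationary: `t (g ω) (g i) (g j) = t ω i j` -/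
structure Stationary {G Ω : Type} [Group G] [DecidableEq G] [MeasurableSpace Ω] [MulAction G Ω]
    (T : Ω → Op G) : Prop where
  measurable : ∀ i j : G, Measurable fun ω => entry (T ω) i j
  stationary : ∀ (g i j : G) (ω : Ω), entry (T (g • ω)) (g * i) (g * j) = entry (T ω) i j

/-- `A ^ n` for an operator `A` -/
def power {H : Type} [NormedAddCommGroup H] [NormedSpace ℂ H] (A : H →L[ℂ] H) (n : ℕ) :
    H →L[ℂ] H := A ^ n

/-- `A + z B` for operators `A`, `B` and a number `z` -/
def line {H : Type} [NormedAddCommGroup H] [NormedSpace ℂ H] (A B : H →L[ℂ] H) (z : ℂ) :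
    H →L[ℂ] H := A + z • B

/-- `A - z` for an operator `A` and a number `z` -/
def centre {H : Type} [NormedAddCommGroup H] [NormedSpace ℂ H] (A : H →L[ℂ] H) (z : ℂ) :
    H →L[ℂ] H := A - z • 1

/-- the mean of the diagonal entries -/
noncomputable def mean {G Ω : Type} [Group G] [DecidableEq G] [MeasurableSpace Ω] (P : Measure Ω)
    (T : Ω → Op G) : ℂ :=
  ∫ ω, entry (T ω) 1 1 ∂P

/-- the centred moment of order `n` -/
noncomputable def moment {G Ω : Type} [Group G] [DecidableEq G] [MeasurableSpace Ω] (P : Measure Ω)
    (T : Ω → Op G) (n : ℕ) : ℂ :=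
  ∫ ω, entry (power (centre (T ω) (mean P T)) n) 1 1 ∂P

/-- `A` has a closed subspace, neither `{0}` nor the whole space, which is invariant under every bounded
operator commuting with `A` -/
def HasHyperinvariantSubspace {H : Type} [NormedAddCommGroup H] [NormedSpace ℂ H] (A : H →L[ℂ] H) :
    Prop :=
  ∃ V : Submodule ℂ H, IsClosed (V : Set H) ∧ V ≠ ⊥ ∧ V ≠ ⊤ ∧
    ∀ Q : H →L[ℂ] H, (∀ f, Q (A f) = A (Q f)) → ∀ f ∈ V, Q f ∈ V

/-- almost every `T ω` has a nontrivial closed hyperinvariant subspace -/
def AlmostAll {G Ω : Type} [MeasurableSpace Ω] (P : Measure Ω) (T : Ω → Op G) : Prop :=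
  ∀ᵐ ω ∂P, HasHyperinvariantSubspace (T ω)

/-- the exceptional numbers `z`: those for which it is not true that almost every `T ω + z V ω` has a
nontrivial closed hyperinvariant subspace -/
def exceptional {G Ω : Type} [MeasurableSpace Ω] (P : Measure Ω) (T V : Ω → Op G) : Set ℂ :=
  {z | ¬ AlmostAll P (fun ω => line (T ω) (V ω) z)}

/-- `C` has at most `n` elements -/
def AtMost (n : ℕ) (C : Set ℂ) : Prop := C.Finite ∧ C.ncard ≤ n

/-- all `V ω` are self-adjoint, and they are not almost everywhere equal to one scalar -/
def SelfAdjointNonscalar {G Ω : Type} [DecidableEq G] [MeasurableSpace Ω] (P : Measure Ω)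
    (V : Ω → Op G) : Prop :=
  (∀ ω i j, entry (V ω) i j = starRingEnd ℂ (entry (V ω) j i)) ∧
    ¬ ∃ c : ℂ, ∀ᵐ ω ∂P, ∀ i j, entry (V ω) i j = if i = j then c else 0

theorem result (G Ω : Type) [Group G] [Countable G] [DecidableEq G] [MeasurableSpace Ω]
    [MulAction G Ω] (P : Measure Ω) [IsProbabilityMeasure P] (hP : ErgodicAction G P)
    (T : Ω → Op G) (hT : Stationary T) :
    (∀ n : ℕ, 1 ≤ n → moment P T n ≠ 0 → AlmostAll P T) ∧
    ∀ V : Ω → Op G, Stationary V →
      (∀ n : ℕ, 1 ≤ n → moment P V n ≠ 0 → AtMost n (exceptional P T V)) ∧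
      (SelfAdjointNonscalar P V → AtMost 2 (exceptional P T V)) := by
  have hb : ∀ j : G, Pool.Agent.W611.RO.stb G j = lp.single 2 j (1 : ℂ) := by
    intro j
    apply lp.ext
    funext i
    rw [Pool.Agent.W611.RO.stb_apply, lp.single_apply]
    by_cases h : i = j
    · subst h
      simp
    · rw [if_neg h, Pi.single_eq_of_ne h]
  have he : ∀ (A : Op G) (i j : G), entry A i j
      = inner ℂ (Pool.Agent.W611.RO.stb G i) (A (Pool.Agent.W611.RO.stb G j)) := by
    intro A i j
    rw [Pool.Agent.W611.RO.stb_coord, hb j]
    rfl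
  have hC : ∀ T : Ω → Op G, Stationary T → Pool.Agent.J4.H89.Mom.Covf T := by
    intro T hT
    refine ⟨fun i j => ?_, fun g i j ω => ?_⟩
    · simp only [← he]
      exact hT.measurable i j
    · rw [← he, ← he]
      exact hT.stationary g i j ω
  have hm : ∀ (T : Ω → Op G) (n : ℕ),
      moment P T n = Pool.Agent.J4.H89.Mom.cmom P T n := by
    intro T n
    unfold moment mean power centre Pool.Agent.J4.H89.Mom.cmom
    simp only [he]
  have hh : ∀ A : Op G, HasHyperinvariantSubspace A ↔ Pool.Agent.W611.RO.HasHyp A := by
    intro A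
    constructor
    · rintro ⟨V, h1, h2, h3, h4⟩
      exact ⟨V, h1, h2, h3, fun Q hQ => h4 Q fun f => congrArg (fun Z : Op G => Z f) hQ⟩
    · rintro ⟨V, h1, h2, h3, h4⟩
      exact ⟨V, h1, h2, h3, fun Q hQ => h4 Q (ContinuousLinearMap.ext hQ)⟩
  have hE : ErgodicAction G P → Pool.Agent.W611.RO.Erg G P := fun h => ⟨h.preserving, h.ergodic⟩
  have hex : ∀ V : Ω → Op G, exceptional P T V
      = {z : ℂ | ¬ ∀ᵐ ω ∂P, Pool.Agent.W611.RO.HasHyp (T ω + z • V ω)} := by
    intro V
    unfold exceptional AlmostAll line
    simp only [hh]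
  refine ⟨fun n hn h => ?_, fun V hV => ⟨fun n hn h => ?_, fun ⟨h1, h2⟩ => ?_⟩⟩
  · rw [hm] at h
    unfold AlmostAll
    simp only [hh]
    exact Pool.Agent.J4.H89.Mom.fam_mom (hE hP) (hC T hT) hn h
  · rw [hm] at h
    unfold AtMost
    rw [hex]
    exact Pool.Agent.J4.H89.Mom.fam_line (hE hP) (hC T hT) (hC V hV) hn h
  · unfold AtMost
    rw [hex]
    have hsa : ∀ ω, IsSelfAdjoint (V ω) := by
      intro ω
      rw [isSelfAdjoint_iff]
      refine Pool.Agent.W253.RO.clm_ext (Pool.Agent.W611.RO.stb G) _ _ fun k => ?_
      apply lp.ext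
      funext i
      rw [← Pool.Agent.W611.RO.stb_coord, ← Pool.Agent.W611.RO.stb_coord,
        ContinuousLinearMap.star_eq_adjoint, ContinuousLinearMap.adjoint_inner_right,
        ← inner_conj_symm, ← he, ← he]
      exact (h1 ω i k).symm
    have hns : ¬ ∃ c : ℂ, ∀ᵐ ω ∂P, V ω = c • 1 := by
      rintro ⟨c, hc⟩
      apply h2
      refine ⟨c, ?_⟩
      filter_upwards [hc] with ω hω i j
      rw [he, hω]
      show inner ℂ (Pool.Agent.W611.RO.stb G i) (c • Pool.Agent.W611.RO.stb G j) = _
      rw [inner_smul_right, orthonormal_iff_ite.1 (Pool.Agent.W611.RO.stb G).orthonormal i j]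
      split_ifs <;> simp
    exact Pool.Agent.J4.H89.Mom.fam_line (hE hP) (hC T hT) (hC V hV) (by norm_num)
      (Pool.Agent.J4.H89.Mom.cmom_sa (hE hP) (hC V hV) hsa hns)

end Pool.Agent.J4.H89.Old.MomentCriterion
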