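import Pool.Agent.Y280.GFin

/-!
# MP_f981b0_an: typical positive contractions of `ℓ_p`

For every `1 < p < ∞` a typical positive contraction of `ℓ_p` has nontrivial closed invariant
subspaces, arbitrarily close to every vector, both for the strong and for the strong* operator
topology. More generally this holds for the regular contractions (the matrix of absolute values is a
contraction) all of whose matrix entries belong to a closed set `Φ` of complex numbers which contains
`0` and `1` and is mapped into itself by multiplication with numbers in `[0, 1]`: `Φ = [0, ∞)` gives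
the positive contractions, `Φ = ℝ` the real ones, `Φ = ℂ` all regular contractions.

These sets are closed and nowhere dense in the space of all contractions, so nothing about their
typical elements follows from the theorem on typical contractions (`TypicalContractions`, starting
file). For positive contractions the result was known for `p = 2` (V. Gillet; there the spectrum
contains the unit circle and the theorem of Brown, Chevreau and Pearcy applies).

Proof (`Pool.Agent.Y280`, starting library): a finite regular matrix is put into an orbit of a weighted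
shift by a Perron pair of its absolute value (transference), which bounds the norms of polynomials in
regular contractions of `ℓ_p` by those of the shift on `ℓ_p`; a small perturbation far out with a long
cycle kills all the coefficients `y (T ^ n x)`, at the cost of a small change of `x` and `y`; then
Baire category.
-/

set_option autoImplicit false
open Finset TopologicalSpace Pool.Agent.Y280
open scoped ENNReal ComplexOrder

namespace Pool.Agent.Results.MP_f981b0_an.TypicalPositive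

variable {E : Type} [NormedAddCommGroup E] [NormedSpace ℂ E]

/-- The positive contractions of `ℓ_p`, in terms of the coordinates `c`. -/
def PosContr (c : E →ₗ[ℂ] (ℕ → ℂ)) : Set (E →L[ℂ] E) :=
  {T | ‖T‖ ≤ 1 ∧ ∀ x : E, (∀ i, 0 ≤ c x i) → ∀ i, 0 ≤ c (T x) i}

/-- The regular contractions of `ℓ_p` with matrix entries in `Φ`: `a i j` is the `i`-th coordinate of
the image of the `j`-th unit vector, all `a i j` are in `Φ`, and the matrix of the absolute values
`|a i j|` is a contraction of `ℓ_p` (the condition is stated for the finite sections). -/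
def RegContr (p : ℝ) (c : E →ₗ[ℂ] (ℕ → ℂ)) (Φ : Set ℂ) : Set (E →L[ℂ] E) :=
  {T | ∃ a : ℕ → ℕ → ℂ, (∀ (j : ℕ) (x : E), c x = Pi.single j 1 → ∀ i, c (T x) i = a i j) ∧
    (∀ i j, a i j ∈ Φ) ∧ ∀ (N : ℕ) (x : ℕ → ℝ), (∀ j, 0 ≤ x j) →
      ∑ i ∈ range N, (∑ j ∈ range N, ‖a i j‖ * x j) ^ p ≤ ∑ j ∈ range N, x j ^ p}

theorem regContr_iff {P : ℝ≥0∞} [Fact (1 ≤ P)] (c : E →ₗ[ℂ] (ℕ → ℂ))
    (e : E ≃ₗᵢ[ℂ] EP P) (he : ∀ x i, e x i = c x i) (Φ : Set ℂ) (T : E →L[ℂ] E) :
    T ∈ RegContr P.toReal c Φ ↔ cj e T ∈ Cls P Φ := by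
  have hsingle : ∀ (j : ℕ) (x : E), c x = Pi.single j 1 ↔ x = e.symm (eP P j) := by
    intro j x
    constructor
    · intro h
      apply e.injective
      rw [e.apply_symm_apply]
      ext i
      rw [he, h, eP_apply, Pi.single_apply]
    · rintro rfl
      funext i
      rw [← he, e.apply_symm_apply, eP_apply, Pi.single_apply]
  have hent : ∀ i j, ent (cj e T) i j = c (T (e.symm (eP P j))) i := by
    intro i j
    unfold ent
    rw [cj_apply, he]
  constructor
  · rintro ⟨a, h1, h2, h3⟩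
    have h4 : ent (cj e T) = a := by
      funext i j
      rw [hent]
      exact h1 j _ ((hsingle j _).2 rfl) i
    exact ⟨by rw [h4]; exact h3, by rw [h4]; exact h2⟩
  · rintro ⟨h1, h2⟩
    refine ⟨ent (cj e T), ?_, h2, h1⟩
    intro j x hx i
    rw [(hsingle j x).1 hx, hent]

theorem posContr_iff {P : ℝ≥0∞} [Fact (1 ≤ P)] (c : E →ₗ[ℂ] (ℕ → ℂ))
    (e : E ≃ₗᵢ[ℂ] EP P) (he : ∀ x i, e x i = c x i) (T : E →L[ℂ] E) :
    T ∈ PosContr c ↔ cj e T ∈ PosC P := by
  constructor
  · rintro ⟨h1, h2⟩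
    refine ⟨by rw [norm_cj]; exact h1, fun x hx i => ?_⟩
    rw [cj_apply, he]
    exact h2 _ (fun j => by rw [← he, e.apply_symm_apply]; exact hx j) i
  · rintro ⟨h1, h2⟩
    refine ⟨by rwa [norm_cj] at h1, fun x hx i => ?_⟩
    have h3 := h2 (e x) (fun j => by rw [he]; exact hx j) i
    rwa [cj_apply, e.symm_apply_apply, he] at h3

/-- the theorem on Mathlib's `lp` -/
theorem cls_all {P : ℝ≥0∞} [Fact (1 ≤ P)] (hP1 : 1 < P) (hPt : P ≠ ∞) {Φ : Set ℂ}
    (hΦ : IsClosed Φ) (h0 : (0 : ℂ) ∈ Φ) (h1 : (1 : ℂ) ∈ Φ)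
    (hsc : ∀ z ∈ Φ, ∀ r : ℝ, 0 ≤ r → r ≤ 1 → (r : ℂ) * z ∈ Φ) (t : TopologicalSpace (Cls P Φ))
    (ht : t = SOT (Cls P Φ) ∨ t = SOTStar (Cls P Φ)) :
    (Cls P Φ).Nonempty ∧ @IsCompletelyMetrizableSpace (Cls P Φ) t ∧ @BaireSpace (Cls P Φ) t ∧
      {T : Cls P Φ | DenselyInvariant (T : EP P →L[ℂ] EP P)} ∈ @residual (Cls P Φ) t := by
  have hp := toReal_pos' hPt
  have hcm1 := cls_cm_sot hP1 hPt hΦ
  have hcm2 := cls_cm_sotStar hP1 hPt hΦ
  have hb : ∀ t : TopologicalSpace (Cls P Φ), @IsCompletelyMetrizableSpace (Cls P Φ) t →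
      @BaireSpace (Cls P Φ) t := fun t hcm =>
    @BaireSpace.of_completelyPseudoMetrizable _ t
      (@IsCompletelyMetrizableSpace.toIsCompletelyPseudoMetrizableSpace _ t hcm)
  have hgood : ∀ T : Cls P Φ, Good (T : EP P →L[ℂ] EP P) →
      DenselyInvariant (T : EP P →L[ℂ] EP P) := fun T hT x₀ ε hε => inv_of_good hT x₀ hε
  refine ⟨⟨0, ?_, ?_⟩, ?_⟩
  · intro N x hx
    have hz : ∀ i ∈ range N, (∑ j ∈ range N, ‖ent (0 : EP P →L[ℂ] EP P) i j‖ * x j) ^ P.toReal
        = 0 := by
      intro i _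
      have : ∑ j ∈ range N, ‖ent (0 : EP P →L[ℂ] EP P) i j‖ * x j = 0 := by
        refine Finset.sum_eq_zero fun j _ => ?_
        unfold ent
        simp
      rw [this, Real.zero_rpow hp.ne']
    rw [Finset.sum_eq_zero hz]
    exact Finset.sum_nonneg fun j _ => Real.rpow_nonneg (hx j) _
  · intro i j
    unfold ent
    simpa using h0
  · rcases ht with rfl | rfl
    · exact ⟨hcm1, hb _ hcm1, Filter.mem_of_superset
        (cls_typical hP1 hPt h0 h1 hsc (sotStar_le_sot _) le_rfl) fun T hT => hgood T hT⟩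
    · exact ⟨hcm2, hb _ hcm2, Filter.mem_of_superset
        (cls_typical hP1 hPt h0 h1 hsc le_rfl (sotStar_le_sot _)) fun T hT => hgood T hT⟩

/-- **Typical positive contractions of `ℓ_p`, `1 < p < ∞`, have nontrivial closed invariant
subspaces**, in the strong and in the strong* operator topology; the same for the regular contractions
with entries in `Φ`. The positive contractions are the regular contractions with entries in
`[0, ∞)`. -/
theorem result (p : ℝ) (hp : 1 < p) (c : E →ₗ[ℂ] (ℕ → ℂ)) (hc : IsEllp p c) :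
    PosContr c = RegContr p c {z : ℂ | 0 ≤ z} ∧
    (∀ (t : TopologicalSpace (PosContr c)), (t = SOT (PosContr c) ∨ t = SOTStar (PosContr c)) →
      (PosContr c).Nonempty ∧ @IsCompletelyMetrizableSpace _ t ∧ @BaireSpace _ t ∧
        {T : PosContr c | DenselyInvariant (T : E →L[ℂ] E)} ∈ @residual _ t) ∧
    ∀ Φ : Set ℂ, IsClosed Φ → (0 : ℂ) ∈ Φ → (1 : ℂ) ∈ Φ →
      (∀ z ∈ Φ, ∀ r : ℝ, 0 ≤ r → r ≤ 1 → (r : ℂ) * z ∈ Φ) →
      ∀ (t : TopologicalSpace (RegContr p c Φ)),
        (t = SOT (RegContr p c Φ) ∨ t = SOTStar (RegContr p c Φ)) →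
      (RegContr p c Φ).Nonempty ∧ @IsCompletelyMetrizableSpace _ t ∧ @BaireSpace _ t ∧
        {T : RegContr p c Φ | DenselyInvariant (T : E →L[ℂ] E)} ∈ @residual _ t := by
  have hp0 : 0 < p := zero_lt_one.trans hp
  obtain ⟨P, hP1, hPt, hPr⟩ : ∃ P : ℝ≥0∞, 1 < P ∧ P ≠ ∞ ∧ P.toReal = p := by
    refine ⟨ENNReal.ofReal p, ?_, ENNReal.ofReal_ne_top, ENNReal.toReal_ofReal hp0.le⟩
    rw [← ENNReal.ofReal_one]
    exact (ENNReal.ofReal_lt_ofReal_iff hp0).2 hp
  haveI : Fact (1 ≤ P) := ⟨hP1.le⟩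
  subst hPr
  obtain ⟨e, he⟩ := exists_isometry hp0 hc
  have heq : PosContr c = RegContr P.toReal c {z : ℂ | 0 ≤ z} := by
    ext T
    rw [regContr_iff c e he, posContr_iff c e he, posC_eq hP1 hPt]
  have hmain : ∀ Φ : Set ℂ, IsClosed Φ → (0 : ℂ) ∈ Φ → (1 : ℂ) ∈ Φ →
      (∀ z ∈ Φ, ∀ r : ℝ, 0 ≤ r → r ≤ 1 → (r : ℂ) * z ∈ Φ) →
      ∀ (t : TopologicalSpace (RegContr P.toReal c Φ)),
        (t = SOT (RegContr P.toReal c Φ) ∨ t = SOTStar (RegContr P.toReal c Φ)) →
      (RegContr P.toReal c Φ).Nonempty ∧ @IsCompletelyMetrizableSpace _ t ∧ @BaireSpace _ t ∧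
        {T : RegContr P.toReal c Φ | DenselyInvariant (T : E →L[ℂ] E)} ∈ @residual _ t := by
    intro Φ hΦ h0 h1 hsc t ht
    exact transfer_typ e _ (Cls P Φ) (regContr_iff c e he Φ) t ht DenselyInvariant
      DenselyInvariant (denselyInvariant_cj e)
      fun t' ht' => cls_all hP1 hPt hΦ h0 h1 hsc t' ht'
  refine ⟨heq, ?_, hmain⟩
  rw [heq]
  refine hmain _ ?_ ?_ ?_ ?_
  · exact isClosed_Ici
  · simp
  · simp
  · intro z hz r hr _
    have hz' : (0 : ℂ) ≤ z := hz
    have hr' : (0 : ℂ) ≤ (r : ℂ) := by simpa using hr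
    show (0 : ℂ) ≤ (r : ℂ) * z
    exact mul_nonneg hr' hz'

end Pool.Agent.Results.MP_f981b0_an.TypicalPositive
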